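import Pool.Agent.TKL.M

/-! # MP_cc494f_an, Q1: for every function of the class `T_v` almost every level set is finite. -/

open MeasureTheory Set Filter Topology

namespace Pool.Agent.Results.MP_cc494f_an.AllLevelSetsFinite

/-- The distance from `x` to the nearest integer. -/
noncomputable def phi (x : ℝ) : ℝ := |x - round x|

/-- `f` (restricted to `[0,1]`) belongs to the class `T_v`: there are functions
`ω_n : [0,1] → {-1, 1}`, `n ≥ 0`, with `ω_n` constant on each interval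
`[j 2^{-n}, (j+1) 2^{-n})`, `j = 0, …, 2^n - 1`, such that
`f(x) = ∑_{n ≥ 0} 2^{-n} ω_n(x) φ(2^n x)` for all `x ∈ [0,1]`. -/
def IsTv (f : ℝ → ℝ) : Prop :=
  ∃ ω : ℕ → ℝ → ℝ,
    (∀ n : ℕ, ∀ x ∈ Icc (0:ℝ) 1, ω n x = 1 ∨ ω n x = -1) ∧
    (∀ n j : ℕ, j < 2 ^ n → ∀ x ∈ Ico ((j:ℝ) / 2 ^ n) (((j:ℝ) + 1) / 2 ^ n),
      ω n x = ω n ((j:ℝ) / 2 ^ n)) ∧
    ∀ x ∈ Icc (0:ℝ) 1, f x = ∑' n : ℕ, ((2:ℝ) ^ n)⁻¹ * ω n x * phi ((2:ℝ) ^ n * x)

/-- Q1 in full: for every `f` in `T_v`, the level set `{x ∈ [0,1] : f(x) = y}` is finite for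
Lebesgue-almost every real `y`. -/
theorem result : ∀ f : ℝ → ℝ, IsTv f →
    ∀ᵐ y ∂(volume : Measure ℝ), {x : ℝ | x ∈ Icc (0:ℝ) 1 ∧ f x = y}.Finite := by
  rintro f ⟨ω, h1, h2, h3⟩
  classical
  -- the sign array on integers
  set w : ℕ → ℤ → ℤ := fun n j => if ω n ((j:ℝ) / 2 ^ n) = 1 then 1 else -1 with hwdef
  have hw : R109.GT.Sgn w := by
    intro n j
    by_cases h : ω n ((j:ℝ) / 2 ^ n) = 1
    · left; rw [hwdef]; exact if_pos h
    · right; rw [hwdef]; exact if_neg h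
  have heq : ∀ x ∈ Icc (0:ℝ) 1, f x = R109.GT.tak w x := by
    intro x hx
    rw [h3 x hx]
    unfold R109.GT.tak
    apply tsum_congr
    intro n
    have hp : (0:ℝ) < 2 ^ n := by positivity
    have hphi : phi ((2:ℝ) ^ n * x) = R109.GT.phi ((2:ℝ) ^ n * x) := rfl
    rcases hx.2.lt_or_eq with hlt | heq1
    · have hfl0 : 0 ≤ ⌊(2:ℝ) ^ n * x⌋ := Int.floor_nonneg.2 (mul_nonneg hp.le hx.1)
      obtain ⟨j, hj⟩ := Int.eq_ofNat_of_zero_le hfl0
      have hlow : (j:ℝ) ≤ (2:ℝ) ^ n * x := by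
        have := Int.floor_le ((2:ℝ) ^ n * x)
        rw [hj] at this; exact_mod_cast this
      have hup : (2:ℝ) ^ n * x < j + 1 := by
        have := Int.lt_floor_add_one ((2:ℝ) ^ n * x)
        rw [hj] at this; exact_mod_cast this
      have hjn : j < 2 ^ n := by
        have : (j:ℝ) < 2 ^ n := by nlinarith
        exact_mod_cast this
      have hmem : x ∈ Ico ((j:ℝ) / 2 ^ n) (((j:ℝ) + 1) / 2 ^ n) := by
        constructor
        · rw [div_le_iff₀ hp]; linarith
        · rw [lt_div_iff₀ hp]; linarith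
      have hω : ω n x = (w n ⌊(2:ℝ) ^ n * x⌋ : ℝ) := by
        rw [h2 n j hjn x hmem, hj]
        have hcast : (((Int.ofNat j : ℤ)) : ℝ) = (j:ℝ) := by simp
        have hjI : ((j:ℝ) / 2 ^ n) ∈ Icc (0:ℝ) 1 := by
          constructor
          · positivity
          · rw [div_le_one hp]
            exact_mod_cast hjn.le
        rcases h1 n _ hjI with h | h
        · have : w n (j:ℤ) = 1 := by
            rw [hwdef]
            simp only [Int.cast_natCast]
            rw [if_pos h]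
          rw [h, this]; simp
        · have : w n (j:ℤ) = -1 := by
            rw [hwdef]
            simp only [Int.cast_natCast]
            rw [if_neg (by rw [h]; norm_num)]
          rw [h, this]; simp
      rw [hω, hphi]
      field_simp
    · have hz : R109.GT.phi ((2:ℝ) ^ n * x) = 0 := by
        rw [heq1, mul_one]
        have := TKL.phi_int (2 ^ n)
        push_cast at this
        exact this
      rw [hphi, hz]; simp
  have h := TKL.ae_finite_all w hw
  filter_upwards [h] with y hy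
  have : {x : ℝ | x ∈ Icc (0:ℝ) 1 ∧ f x = y} =
      {x : ℝ | x ∈ Icc (0:ℝ) 1 ∧ R109.GT.tak w x = y} := by
    ext x
    simp only [mem_ofPred_eq]
    constructor
    · rintro ⟨hx, he⟩; exact ⟨hx, by rw [← heq x hx]; exact he⟩
    · rintro ⟨hx, he⟩; exact ⟨hx, by rw [heq x hx]; exact he⟩
  rw [this]
  exact hy

end Pool.Agent.Results.MP_cc494f_an.AllLevelSetsFinite
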